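import Mathlib
import Pool.Agent.Y268.D3.Stm
import Pool.Agent.H578R2.Kad3.Gram
import Pool.Agent.H797R2.Kad3.Entries

/-!
# Project D3: the multilinear parts of the random vectors and their Gram matrices
-/

set_option autoImplicit false

open scoped ComplexOrder InnerProductSpace ComplexConjugate
open Finset

noncomputable section

namespace Pool.Agent.Y604.D3

open H759R2.Kad H711R2.KG Y268.D3

section mat

variable {B : Type} [CStarAlgebra B] {n : ℕ}

/-- the matrix with one entry -/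
def eM (a b : Fin n) (x : B) : CStarMatrix (Fin n) (Fin n) B :=
  CStarMatrix.ofMatrix fun i j => if i = a ∧ j = b then x else 0

theorem eM_apply (a b : Fin n) (x : B) (i j : Fin n) :
    eM a b x i j = if i = a ∧ j = b then x else 0 := rfl

theorem sum_entry {α : Type} (S : Finset α) (F : α → CStarMatrix (Fin n) (Fin n) B)
    (i j : Fin n) : (∑ s ∈ S, F s) i j = ∑ s ∈ S, F s i j := by
  show A12.ent i j (∑ s ∈ S, F s) = _
  rw [map_sum]
  rfl

theorem eM_star (a b : Fin n) (x : B) : star (eM a b x) = eM b a (star x) := by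
  ext i j
  rw [CStarMatrix.star_apply, eM_apply, eM_apply]
  by_cases h : j = a ∧ i = b
  · rw [if_pos h, if_pos ⟨h.2, h.1⟩]
  · rw [if_neg h, if_neg fun h' => h ⟨h'.2, h'.1⟩, star_zero]

theorem mul_eM (Y : CStarMatrix (Fin n) (Fin n) B) (a b : Fin n) (x : B) (i j : Fin n) :
    (Y * eM a b x) i j = if j = b then Y i a * x else 0 := by
  rw [CStarMatrix.mul_apply, Finset.sum_eq_single a]
  · rw [eM_apply]
    by_cases h : j = b
    · rw [if_pos ⟨rfl, h⟩, if_pos h]
    · rw [if_neg fun h' => h h'.2, if_neg h, mul_zero]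
  · intro l _ hl
    rw [eM_apply, if_neg fun h' => hl h'.1, mul_zero]
  · intro h
    exact absurd (mem_univ _) h

theorem eM_mul_eM (a b c d : Fin n) (x y : B) :
    eM a b x * eM c d y = if b = c then eM a d (x * y) else 0 := by
  ext i j
  rw [mul_eM, eM_apply]
  by_cases h : b = c
  · rw [if_pos h, eM_apply]
    by_cases h1 : j = d
    · rw [if_pos h1]
      by_cases h2 : i = a
      · rw [if_pos ⟨h2, h.symm⟩, if_pos ⟨h2, h1⟩]
      · rw [if_neg fun h' => h2 h'.1, if_neg fun h' => h2 h'.1, zero_mul]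
    · rw [if_neg h1, if_neg fun h' => h1 h'.2]
  · rw [if_neg h, CStarMatrix.zero_apply]
    by_cases h1 : j = d
    · rw [if_pos h1, if_neg fun h' => h h'.2.symm, zero_mul]
    · rw [if_neg h1]

theorem dgu_mul (p : unitary B) (Z : CStarMatrix (Fin n) (Fin n) B) (i j : Fin n) :
    ((dgu p : CStarMatrix (Fin n) (Fin n) B) * Z) i j = (p : B) * Z i j := by
  rw [CStarMatrix.mul_apply, Finset.sum_eq_single i]
  · congr 1
    show (Matrix.diagonal (fun _ : Fin n => (p : B)) : Matrix (Fin n) (Fin n) B) i i = _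
    rw [Matrix.diagonal_apply_eq]
  · intro l _ hl
    have : (dgu p : CStarMatrix (Fin n) (Fin n) B) i l = 0 := by
      show (Matrix.diagonal (fun _ : Fin n => (p : B)) : Matrix (Fin n) (Fin n) B) i l = _
      rw [Matrix.diagonal_apply_ne _ hl.symm]
    rw [this, zero_mul]
  · intro h
    exact absurd (mem_univ _) h

/-- the sequences of letters without repetition with the set of letters `M` -/
def Sg {n : ℕ} (k : ℕ) (M : Finset (Fin n)) : Finset (Fin (k + 1) → Fin n) :=
  univ.filter (fun σ : Fin (k + 1) → Fin n => Function.Injective σ ∧ univ.image σ = M)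

theorem Yf_eq (X : CStarMatrix (Fin n) (Fin n) B) (g : Fin n → unitary B) (R k : ℕ) [NeZero R]
    (hR : k + 1 < R) (M : Finset (Fin n)) (hM : M.card = k + 1) :
    Yf X g R k (ind R M) = ∑ σ ∈ Sg k M, eM (σ 0) (σ (Fin.last k)) (sword X g σ) := by
  ext i j
  rw [sum_entry]
  unfold Sg
  rw [sum_filter]
  show (∑ σ : Fin (k + 1) → Fin n,
    if σ 0 = i ∧ σ (Fin.last k) = j ∧ freq R σ = ind R M then sword X g σ else 0) = _
  refine sum_congr rfl fun σ _ => ?_
  have h0 := A12.freq_iff R hR M hM σ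
  rw [eM_apply]
  by_cases h1 : Function.Injective σ ∧ univ.image σ = M
  · rw [if_pos h1]
    by_cases h2 : σ 0 = i ∧ σ (Fin.last k) = j
    · rw [if_pos ⟨h2.1, h2.2, h0.2 h1⟩, if_pos ⟨h2.1.symm, h2.2.symm⟩]
    · rw [if_neg fun h' => h2 ⟨h'.1, h'.2.1⟩, if_neg fun h' => h2 ⟨h'.1.symm, h'.2.symm⟩]
  · rw [if_neg h1, if_neg fun h' => h1 (h0.1 h'.2.2)]

end mat

section perm

variable {n k : ℕ}

theorem nodup_val {σ : Fin (k + 1) → Fin n} (h : Function.Injective σ) :
    (List.ofFn fun t => (σ t : ℕ)).Nodup :=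
  List.nodup_ofFn.2 fun _ _ h' => h (Fin.ext h')

theorem perm_val {σ σ' : Fin (k + 1) → Fin n} (h : Function.Injective σ)
    (h' : Function.Injective σ') (him : univ.image σ = univ.image σ') :
    (List.ofFn fun t => (σ' t : ℕ)).Perm (List.ofFn fun t => (σ t : ℕ)) := by
  rw [List.perm_ext_iff_of_nodup (nodup_val h') (nodup_val h)]
  intro c
  rw [List.mem_ofFn', List.mem_ofFn']
  constructor
  · rintro ⟨t, rfl⟩
    have h1 : σ' t ∈ univ.image σ := by rw [him]; exact mem_image_of_mem _ (mem_univ _)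
    obtain ⟨t', _, ht'⟩ := mem_image.1 h1
    exact ⟨t', by simp only [ht']⟩
  · rintro ⟨t, rfl⟩
    have h1 : σ t ∈ univ.image σ' := by rw [← him]; exact mem_image_of_mem _ (mem_univ _)
    obtain ⟨t', _, ht'⟩ := mem_image.1 h1
    exact ⟨t', by simp only [ht']⟩

end perm

section form

variable {K : Type} [NormedAddCommGroup K] [InnerProductSpace ℂ K] {q : Form K} {C : ℝ}

theorem form_zero (hq : IsForm q C) (ξ : K) : q ξ 0 = 0 := by
  have h := hq.smul 0 ξ 0
  rw [zero_smul, zero_mul] at h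
  exact h

theorem form_sum (hq : IsForm q C) {α : Type} (S : Finset α) (ξ : K) (F : α → K) :
    q ξ (∑ s ∈ S, F s) = ∑ s ∈ S, q ξ (F s) := by
  classical
  induction S using Finset.induction_on with
  | empty => rw [sum_empty, sum_empty, form_zero hq]
  | insert a S ha ih => rw [sum_insert ha, sum_insert ha, hq.add, ih]

theorem form_sum' (hq : IsForm q C) {α : Type} (S : Finset α) (ξ : K) (F : α → K) :
    q (∑ s ∈ S, F s) ξ = ∑ s ∈ S, q (F s) ξ := by
  rw [hq.herm, form_sum hq, map_sum]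
  refine sum_congr rfl fun s _ => ?_
  rw [← hq.herm]

end form

section words

variable {B : Type} [CStarAlgebra B] {n k : ℕ}

theorem lst_ok {X : CStarMatrix (Fin n) (Fin n) B} {M : Finset (Fin n)}
    (l2 : ∀ (σ : Fin (k + 1) → Fin n), (lst X σ).map Prod.fst = List.ofFn fun t => (σ t : ℕ))
    {σ σ' : Fin (k + 1) → Fin n} (hσ : σ ∈ Sg k M) (hσ' : σ' ∈ Sg k M) :
    ((lst X σ).map Prod.fst).Nodup ∧ ((lst X σ').map Prod.fst).Perm ((lst X σ).map Prod.fst) ∧
      ∀ x ∈ lst X σ, x.1 < n := by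
  unfold Sg at hσ hσ'
  rw [mem_filter] at hσ hσ'
  refine ⟨?_, ?_, fun x hx => ?_⟩
  · rw [l2]
    exact nodup_val hσ.2.1
  · rw [l2, l2]
    exact perm_val hσ.2.1 hσ'.2.1 (hσ.2.2.trans hσ'.2.2.symm)
  · have h1 : x.1 ∈ (lst X σ).map Prod.fst := List.mem_map_of_mem hx
    rw [l2, List.mem_ofFn'] at h1
    obtain ⟨t, ht⟩ := h1
    rw [← ht]
    exact (σ t).2

end words

theorem prove_upA : S_lst → S_upA := by
  intro hlst B _ _ _ τ hτ K _ _ _ w hw q C hq Ω E p G n hW X Y hY R k _ hR M hM θ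
  obtain ⟨l1, l2, l3⟩ := hlst B τ hτ n k X
  obtain ⟨V, hV⟩ : ∃ V : Fin n → (Fin (k + 1) → Fin n) → Ω → K, V = fun i σ ω =>
    w ((p ω : B) * (Y i (σ 0) * Wd (G ω) (lst X σ))) (θ (σ (Fin.last k))) := ⟨_, rfl⟩
  have key : ∀ ω i, amp w (Fin n)
      (dgu (p ω) * (Y * Yf X (fun c : Fin n => G ω c) R k (ind R M))) θ i =
      ∑ σ ∈ Sg k M, V i σ ω := by
    intro ω i
    rw [amp_apply, Yf_eq X _ R k hR M hM]
    have h1 : ∀ j, w (((dgu (p ω) : CStarMatrix (Fin n) (Fin n) B) * (Y * ∑ σ ∈ Sg k M,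
        eM (σ 0) (σ (Fin.last k)) (sword X (fun c : Fin n => G ω c) σ))) i j) (θ j) =
        ∑ σ ∈ Sg k M, if j = σ (Fin.last k) then
          w ((p ω : B) * (Y i (σ 0) * Wd (G ω) (lst X σ))) (θ j) else 0 := by
      intro j
      rw [dgu_mul, mul_sum, sum_entry, mul_sum, map_sum, _root_.sum_apply]
      refine sum_congr rfl fun σ _ => ?_
      rw [mul_eM, ← l1]
      by_cases h2 : j = σ (Fin.last k)
      · rw [if_pos h2, if_pos h2]
      · rw [if_neg h2, if_neg h2, mul_zero, map_zero]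
        rfl
    rw [sum_congr rfl fun j _ => h1 j, sum_comm]
    refine sum_congr rfl fun σ _ => ?_
    rw [sum_ite_eq' univ (σ (Fin.last k)), if_pos (mem_univ _), hV]
  have key2 : (fun ω => qa q
        (amp w (Fin n) (dgu (p ω) * (Y * Yf X (fun c : Fin n => G ω c) R k (ind R M))) θ)
        (amp w (Fin n) (dgu (p ω) * (Y * Yf X (fun c : Fin n => G ω c) R k (ind R M))) θ)) =
      fun ω => ∑ i, ∑ σ ∈ Sg k M, ∑ σ' ∈ Sg k M, q (V i σ ω) (V i σ' ω) := by
    funext ω
    unfold qa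
    refine sum_congr rfl fun i _ => ?_
    rw [key, form_sum' hq]
    refine sum_congr rfl fun σ _ => ?_
    rw [form_sum hq]
  have hE : ∀ i, ∀ σ ∈ Sg k M, ∀ σ' ∈ Sg k M, E.E (fun ω => q (V i σ ω) (V i σ' ω)) =
      if σ = σ' then τ (star (Y i (σ 0)) * Y i (σ' 0)) * (pwt τ X σ : ℂ) *
        q (θ (σ (Fin.last k))) (θ (σ' (Fin.last k))) else 0 := by
    intro i σ hσ σ' hσ'
    obtain ⟨h1, h2, h3⟩ := lst_ok l2 hσ hσ'
    have h4 := hW.form (lst X σ) (lst X σ') h1 h2 h3 (Y i (σ 0)) (Y i (σ' 0))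
      (θ (σ (Fin.last k))) (θ (σ' (Fin.last k)))
    rw [l3, hw.one] at h4
    rw [hV]
    exact h4
  rw [key2, E.sum']
  have h5 : ∀ i, E.E (fun ω => ∑ σ ∈ Sg k M, ∑ σ' ∈ Sg k M, q (V i σ ω) (V i σ' ω)) =
      ∑ σ ∈ Sg k M, τ (star (Y i (σ 0)) * Y i (σ 0)) * (pwt τ X σ : ℂ) *
        q (θ (σ (Fin.last k))) (θ (σ (Fin.last k))) := by
    intro i
    rw [E.sum']
    refine sum_congr rfl fun σ hσ => ?_
    rw [E.sum', sum_congr rfl fun σ' hσ' => hE i σ hσ σ' hσ', sum_ite_eq, if_pos hσ]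
  rw [sum_congr rfl fun i _ => h5 i, sum_comm]
  show _ = ∑ σ ∈ Sg k M, (pwt τ X σ : ℂ) * q (θ (σ (Fin.last k))) (θ (σ (Fin.last k)))
  refine sum_congr rfl fun σ _ => ?_
  rw [← sum_mul, ← sum_mul]
  have h6 : ∑ i, τ (star (Y i (σ 0)) * Y i (σ 0)) = 1 := by
    have e1 : star Y * Y = 1 := (Unitary.mem_iff.1 hY).1
    have e2 : ∑ i, star (Y i (σ 0)) * Y i (σ 0) = 1 := by
      have e3 : (star Y * Y) (σ 0) (σ 0) = (1 : CStarMatrix (Fin n) (Fin n) B) (σ 0) (σ 0) := by
        rw [e1]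
      rw [CStarMatrix.mul_apply, CStarMatrix.one_apply_eq] at e3
      rw [← e3]
      rfl
    rw [← map_sum, e2, hτ.one]
  rw [h6, one_mul]

/-- the matrix with one entry, as a continuous linear map -/
def eC {B : Type} [CStarAlgebra B] [PartialOrder B] [StarOrderedRing B] {n : ℕ} (a b : Fin n) :
    B →L[ℂ] CStarMatrix (Fin n) (Fin n) B :=
  LinearMap.mkContinuous
    { toFun := eM a b
      map_add' := fun x y => by
        ext i j
        rw [CStarMatrix.add_apply, eM_apply, eM_apply, eM_apply]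
        split_ifs
        · rfl
        · rw [add_zero]
      map_smul' := fun c x => by
        ext i j
        rw [RingHom.id_apply, CStarMatrix.smul_apply, eM_apply, eM_apply]
        split_ifs
        · rfl
        · rw [smul_zero] } (n * n) fun x => by
    show ‖eM a b x‖ ≤ _
    refine ((prove3_entries B (Fin n) (eM a b x)).1).trans ?_
    calc ∑ i, ∑ j, ‖eM a b x i j‖ ≤ ∑ _i : Fin n, ∑ _j : Fin n, ‖x‖ := by
          refine sum_le_sum fun i _ => sum_le_sum fun j _ => ?_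
          rw [eM_apply]
          split_ifs
          · exact le_rfl
          · rw [norm_zero]
            exact norm_nonneg _
      _ = n * n * ‖x‖ := by
          simp only [sum_const, card_univ, Fintype.card_fin, nsmul_eq_mul]
          ring

theorem eC_apply {B : Type} [CStarAlgebra B] [PartialOrder B] [StarOrderedRing B] {n : ℕ}
    (a b : Fin n) (x : B) : eC a b x = eM a b x := rfl

theorem prove_upB : S_lst → S_upB := by
  intro hlst B _ _ _ τ hτ K _ _ _ w q Ω E p G n hW X R k _ hR M hM φ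
  obtain ⟨l1, l2, l3⟩ := hlst B τ hτ n k X
  have key : (fun ω => φ (star (Yf X (fun c : Fin n => G ω c) R k (ind R M)) *
        Yf X (fun c : Fin n => G ω c) R k (ind R M))) =
      fun ω => ∑ σ ∈ Sg k M, ∑ σ' ∈ Sg k M, if σ 0 = σ' 0 then
        (φ.comp (eC (σ (Fin.last k)) (σ' (Fin.last k))))
          (star (1 * Wd (G ω) (lst X σ)) * (1 * Wd (G ω) (lst X σ'))) else 0 := by
    funext ω
    rw [Yf_eq X _ R k hR M hM, star_sum, sum_mul_sum, map_sum]
    refine sum_congr rfl fun σ _ => ?_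
    rw [map_sum]
    refine sum_congr rfl fun σ' _ => ?_
    rw [eM_star, eM_mul_eM]
    split_ifs
    · rw [one_mul, one_mul, l1, l1]
      rfl
    · rw [map_zero]
  have hE : ∀ σ ∈ Sg k M, ∀ σ' ∈ Sg k M, E.E (fun ω => if σ 0 = σ' 0 then
        (φ.comp (eC (σ (Fin.last k)) (σ' (Fin.last k))))
          (star (1 * Wd (G ω) (lst X σ)) * (1 * Wd (G ω) (lst X σ'))) else 0) =
      if σ = σ' then (pwt τ X σ : ℂ) * φ (eM (σ (Fin.last k)) (σ' (Fin.last k)) 1) else 0 := by
    intro σ hσ σ' hσ'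
    obtain ⟨h1, h2, h3⟩ := lst_ok l2 hσ hσ'
    have h4 := hW.alg (lst X σ) (lst X σ') h1 h2 h3 1 1
      (φ.comp (eC (σ (Fin.last k)) (σ' (Fin.last k))))
    rw [l3] at h4
    by_cases h5 : σ 0 = σ' 0
    · simp only [if_pos h5]
      rw [h4]
      split_ifs
      · rw [star_one, mul_one, hτ.one, one_mul]
        rfl
      · rfl
    · simp only [if_neg h5]
      rw [if_neg fun h6 => h5 (by rw [h6]), E.const]
  rw [key, E.sum']
  have h5 : ∀ σ ∈ Sg k M, E.E (fun ω => ∑ σ' ∈ Sg k M, if σ 0 = σ' 0 then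
        (φ.comp (eC (σ (Fin.last k)) (σ' (Fin.last k))))
          (star (1 * Wd (G ω) (lst X σ)) * (1 * Wd (G ω) (lst X σ'))) else 0) =
      (pwt τ X σ : ℂ) * φ (eM (σ (Fin.last k)) (σ (Fin.last k)) 1) := by
    intro σ hσ
    rw [E.sum', sum_congr rfl fun σ' hσ' => hE σ hσ σ' hσ', sum_ite_eq, if_pos hσ]
  rw [sum_congr rfl fun σ hσ => h5 σ hσ]
  have h6 : dgc B (fun j => ∑ σ ∈ univ.filter (fun σ : Fin (k + 1) → Fin n =>
        Function.Injective σ ∧ univ.image σ = M ∧ σ (Fin.last k) = j), pwt τ X σ) =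
      ∑ σ ∈ Sg k M, (pwt τ X σ : ℂ) • eM (σ (Fin.last k)) (σ (Fin.last k)) (1 : B) := by
    ext i j
    rw [sum_entry]
    show (Matrix.diagonal _ : Matrix (Fin n) (Fin n) B) i j = _
    rw [Matrix.diagonal_apply]
    unfold Sg
    rw [sum_filter]
    by_cases hij : i = j
    · rw [if_pos hij]
      show algebraMap ℂ B ((∑ σ ∈ univ.filter (fun σ : Fin (k + 1) → Fin n =>
        Function.Injective σ ∧ univ.image σ = M ∧ σ (Fin.last k) = i), pwt τ X σ : ℝ) : ℂ) = _
      rw [sum_filter, Complex.ofReal_sum, map_sum]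
      refine sum_congr rfl fun σ _ => ?_
      rw [CStarMatrix.smul_apply, eM_apply]
      by_cases h7 : Function.Injective σ ∧ univ.image σ = M
      · rw [if_pos h7]
        by_cases h8 : σ (Fin.last k) = i
        · rw [if_pos ⟨h7.1, h7.2, h8⟩, if_pos ⟨h8.symm, hij ▸ h8.symm⟩,
            Algebra.algebraMap_eq_smul_one]
        · rw [if_neg fun h' => h8 h'.2.2, if_neg fun h' => h8 h'.1.symm, smul_zero,
            Complex.ofReal_zero, map_zero]
      · rw [if_neg h7, if_neg fun h' => h7 ⟨h'.1, h'.2.1⟩, Complex.ofReal_zero, map_zero]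
    · rw [if_neg hij]
      symm
      refine sum_eq_zero fun σ _ => ?_
      split_ifs
      · rw [CStarMatrix.smul_apply, eM_apply, if_neg fun h' => hij (h'.1.trans h'.2.symm),
          smul_zero]
      · rfl
  rw [h6, map_sum]
  refine sum_congr rfl fun σ _ => ?_
  rw [map_smul, smul_eq_mul]

end Pool.Agent.Y604.D3
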